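import Pool.Agent.H73.UG.YbDim
import Pool.Agent.H89.UG.YbLin
import Pool.Agent.H75.UG.YbRet
import Pool.Agent.H84.UG.Inter
import Pool.Agent.H38.UG.Patch
import Pool.Agent.H77.UG.RetrF
import Pool.Agent.H65.UG.Sym
import Pool.Agent.H47.UG.GPle
import Pool.Agent.H47.UG.H0Y

/-!
# Restriction to the section `x₀ = 0`: the bound for `h¹`
-/

set_option autoImplicit false
set_option linter.unusedSectionVars false

open MvPolynomial

namespace Pool.Agent.H47.UG.FF

variable {K : Type} [Field K] [CharZero K] {n d : ℕ} {F : HP K n} (T : FF d F) (hF : Nice d F)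

include hF

/-- A section of `Gr(e)` whose image in the quotient of `K[Z]` vanishes on `Y` lies in `GP(e) + Gr(e-1)`. -/
theorem yb_mem_sup (hd : 2 ≤ d) (k p : ℕ) (e : ℤ) (m q : ℕ) {M : ℕ}
    (lam : Fin M → (MvPolynomial (ZI n) K →ₗ[K] K)) (W : Fin M → MvPolynomial (ZI n) K)
    (B : Finset (ZI n →₀ ℕ)) (hBt : ∀ b, b ∈ B ↔ Typ k m q b)
    (hWB : ∀ t, (W t).support ⊆ B)
    (hB : ∀ b ∈ B, monomial b 1 - ∑ t, lam t (monomial b 1) • W t ∈ IZ K n k p m q)
    (i : Fin (n + 2)) (v : T.BB) (hv : v ∈ T.GG k e m q i)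
    (h : ∀ t, extL (lam t) (T.ψ v) ∈ T.OO (e - 1 + ((d : ℤ) - 2) * q) i) :
    v ∈ T.GP k p e m q i ⊔ T.GG k (e - 1) m q i := by
  classical
  refine T.patch_of i (T.u_mem hF i) (T.smoothA hF hd i) _ ?_ v ?_
  · intro a ha w hw
    obtain ⟨w1, h1, w2, h2, rfl⟩ := Submodule.mem_sup.1 hw
    rw [smul_add]
    exact Submodule.add_mem_sup (T.stable_GP hF k p e m q i a ha w1 h1)
      (T.stable_GG hF k (e - 1) m q i a ha w2 h2)
  · intro j hj
    obtain ⟨j', rfl⟩ := Fin.exists_succAbove_eq hj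
    obtain ⟨r, hr, a, τ, hτ, ha, h1, h2⟩ := T.retract hF hd i j'
    have hW : ∀ t, W t ∈ IZ K n k 0 m q := by
      intro t
      rw [← support_sum_monomial_coeff (W t)]
      refine Submodule.sum_mem _ fun b hb => ?_
      have h3 : (monomial b (coeff b (W t)) : MvPolynomial (ZI n) K) = coeff b (W t) • monomial b 1 := by
        rw [smul_monomial, smul_eq_mul, mul_one]
      rw [h3]
      exact Submodule.smul_mem _ _ (monomial_IZ b ((hBt b).1 (hWB t hb)))
    have h4 : T.ψ v ∈ BJ (T.OO (e + ((d : ℤ) - 2) * q) i) (IZ K n k p m q) ⊔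
        BJ (T.OO (e - 1 + ((d : ℤ) - 2) * q) i) (IZ K n k 0 m q) := by
      refine mem_BJ_sup _ _ B lam W hW hB _ _ _ ?_ h
      intro b hb
      obtain ⟨h5, h6, h7, h8⟩ := T.ψ_GG hF hd k e m q i v hv b (mem_support_iff.1 hb)
      exact ⟨(hBt b).2 ⟨h5, h6, h7⟩, h8⟩
    obtain ⟨v1, hv1, v2, hv2, hv12⟩ := Submodule.mem_sup.1 h4
    obtain ⟨N1, hN1⟩ := T.ret_GP hF hd k p e m q i j' r a τ hτ ha h1 h2 v1 hv1
    obtain ⟨N2, hN2⟩ := T.ret_GP hF hd k 0 (e - 1) m q i j' r a τ hτ ha h1 h2 v2 hv2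
    rw [T.GP_zero hF] at hN2
    refine ⟨N1 + N2, ?_⟩
    have h9 : T.u i (i.succAbove j') ^ (N1 + N2) • v =
        (T.u i (i.succAbove j') ^ N2) • (C (T.u i (i.succAbove j')) ^ N1 * r v1) +
        (T.u i (i.succAbove j') ^ N1) • (C (T.u i (i.succAbove j')) ^ N2 * r v2) := by
      conv_lhs => rw [← hr v, ← hv12, map_add]
      rw [smul_eq_C_mul, smul_eq_C_mul, smul_eq_C_mul, C_pow, C_pow, C_pow]
      ring
    rw [h9]
    refine Submodule.add_mem_sup ?_ ?_
    · exact T.stable_GP hF k p e m q i _ (Subalgebra.pow_mem _ (T.u_mem hF i _) _) _ hN1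
    · exact T.stable_GG hF k (e - 1) m q i _ (Subalgebra.pow_mem _ (T.u_mem hF i _) _) _ hN2

/-- `loc GP(e) ∩ loc Gr(e-1) ⊆ loc GP(e-1)` -/
theorem yb_loc_inter (hd : 2 ≤ d) (k p : ℕ) (e : ℤ) (m q : ℕ) (i j : Fin (n + 2)) (v : T.BB)
    (h1 : v ∈ T.loc (T.GP k p e m q) i j) (h2 : v ∈ T.loc (T.GG k (e - 1) m q) i j) :
    v ∈ T.loc (T.GP k p (e - 1) m q) i j := by
  obtain ⟨N1, hN1⟩ := h1
  obtain ⟨N2, hN2⟩ := h2
  refine ⟨max N1 N2, T.inter_GP hF hd k p e m q i _ ?_ ?_⟩
  · exact T.yb_loc_mono (T.stable_GP hF k p e m q) (le_max_left _ _) hN1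
  · exact T.yb_loc_mono (T.stable_GG hF k (e - 1) m q) (le_max_right _ _) hN2

/-- If the class of a section on `Y` vanishes, the cocycle is a coboundary. -/
theorem yb_core (hd : 2 ≤ d) (k p : ℕ) (e : ℤ) (m q : ℕ) {M : ℕ}
    (lam : Fin M → (MvPolynomial (ZI n) K →ₗ[K] K)) (W : Fin M → MvPolynomial (ZI n) K)
    (B : Finset (ZI n →₀ ℕ)) (hBt : ∀ b, b ∈ B ↔ Typ k m q b)
    (hWB : ∀ t, (W t).support ⊆ B)
    (hB : ∀ b ∈ B, monomial b 1 - ∑ t, lam t (monomial b 1) • W t ∈ IZ K n k p m q)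
    (h0 : T.H1zero (T.GP k p (e - 1) m q)) (v : Fin (n + 2) → T.BB)
    (hv : T.Cocyc (T.GG k (e - 1) m q) v) (w : T.BB) (hg : ∀ i, v i - w ∈ T.GG k e m q i)
    (h : ∀ t i, extL (lam t) (T.ψ (v i - w)) ∈ T.OO (e - 1 + ((d : ℤ) - 2) * q) i) :
    Cob (n := n) (T.GG k (e - 1) m q) v := by
  have h1 : ∀ i, ∃ γ ∈ T.GP k p e m q i, ∃ η ∈ T.GG k (e - 1) m q i, γ + η = v i - w := fun i =>
    Submodule.mem_sup.1 (T.yb_mem_sup hF hd k p e m q lam W B hBt hWB hB i _ (hg i) fun t => h t i)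
  choose γ hγ η hη hγη using h1
  have hst := T.stable_GG hF k (e - 1) m q
  have h2 : T.Cocyc (T.GP k p (e - 1) m q) γ := by
    intro i j
    have h3 : γ i - γ j = (v i - v j) - (η i - η j) := by
      have h4 := hγη i
      have h5 := hγη j
      rw [eq_sub_of_add_eq h4, eq_sub_of_add_eq h5]
      abel
    refine T.yb_loc_inter hF hd k p e m q i j _ ?_ ?_
    · refine T.yb_loc_sub (T.stable_GP hF k p e m q) (T.yb_mem_loc j (hγ i)) ?_
      rw [T.sym_GP hF k p e m q i j]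
      exact T.yb_mem_loc i (hγ j)
    · rw [h3]
      refine T.yb_loc_sub hst (hv i j) (T.yb_loc_sub hst (T.yb_mem_loc j (hη i)) ?_)
      rw [T.sym_GG hF k (e - 1) m q i j]
      exact T.yb_mem_loc i (hη j)
  obtain ⟨w', hw'⟩ := h0 γ h2
  refine ⟨w + w', fun i => ?_⟩
  have h5 : v i - (w + w') = (γ i - w') + η i := by
    have h6 := hγη i
    rw [← sub_sub, ← h6]
    abel
  rw [h5]
  exact Submodule.add_mem _ (T.GP_le hF hd k p (e - 1) m q i (hw' i)) (hη i)

theorem ybound (hn : 2 ≤ n) (hd : 2 ≤ d) (k p m q : ℕ) (e : ℤ) (N s : ℕ)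
    (h0 : T.H1zero (T.GP k p (e - 1) m q)) (h1 : T.H1le (T.GG k e m q) N) (hs : e + ((d : ℤ) - 2) * q ≤ s) :
    T.H1le (T.GG k (e - 1) m q)
      (N + (monNum n k m q - Module.finrank K (IP K n k p m q)) * hyp (n - 1) d s) := by
  classical
  obtain ⟨Φ, hΦ⟩ := h1
  set R := (monNum n k m q - Module.finrank K (IP K n k p m q)) * hyp (n - 1) d s with hR
  have hst := T.stable_GG hF k (e - 1) m q
  set B : Finset (ZI n →₀ ℕ) := (finite_typ (σ := Fin (n + 2) × Fin (n + 2)) k m q).toFinset with hBdef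
  have hBt : ∀ b, b ∈ B ↔ Typ k m q b := fun b => by rw [hBdef, Set.Finite.mem_toFinset]; rfl
  obtain ⟨M, lam, W, hlam, hWB, hB⟩ := exists_lam (IZ K n k p m q) B
    (fun v hv b hb => (hBt b).2 (typ_IZ hv b hb))
  set Z : Submodule K (Fin (n + 2) → T.BB) := T.cocSub hst ⊓ LinearMap.ker Φ with hZ
  have key : ∃ Φ' : (Fin (n + 2) → T.BB) →ₗ[K] (Fin R → K), ∀ v ∈ Z, Φ' v = 0 →
      v ∈ cobSub (n := n) (K := K) (T.GG k (e - 1) m q) := by
    refine exists_functionals Z (cobSub (n := n) (K := K) (T.GG k (e - 1) m q)) R fun E hE => ?_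
    have hEc : ∀ j, T.Cocyc (T.GG k (e - 1) m q) (E j) := fun j => (Submodule.mem_inf.1 (hE j)).1
    have hEw : ∀ j, ∃ w : T.BB, ∀ i, E j i - w ∈ T.GG k e m q i := by
      intro j
      refine hΦ (E j) (fun a b => T.yb_loc_le (T.yb_GG_mono k (by omega) m q) (hEc j a b)) ?_
      exact LinearMap.mem_ker.1 (Submodule.mem_inf.1 (hE j)).2
    choose w hw using hEw
    have hA : ∀ j t i, extL (lam t) (T.ψ (E j i - w j)) ∈ T.OO (e + ((d : ℤ) - 2) * q) i := by
      intro j t i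
      refine extL_mem _ _ _ fun b hb => ?_
      exact (T.ψ_GG hF hd k e m q i _ (hw j i) b (mem_support_iff.1 hb)).2.2.2
    have hA' : ∀ j t a b, extL (lam t) (T.ψ (E j a - w j)) - extL (lam t) (T.ψ (E j b - w j)) ∈
        T.loc (T.OO (e + ((d : ℤ) - 2) * q - 1)) a b := by
      intro j t a b
      obtain ⟨N', hN'⟩ := hEc j a b
      refine ⟨N', ?_⟩
      have h3 : (T.x b / T.x a) ^ N' • (extL (lam t) (T.ψ (E j a - w j)) - extL (lam t) (T.ψ (E j b - w j))) =
          extL (lam t) (T.ψ ((T.x b / T.x a) ^ N' • (E j a - E j b))) := by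
        rw [map_smul, map_smul, ← map_sub, ← map_sub]
        congr 3
        abel
      rw [h3]
      refine extL_mem _ _ _ fun b' hb => ?_
      have h4 := (T.ψ_GG hF hd k (e - 1) m q a _ hN' b' (mem_support_iff.1 hb)).2.2.2
      convert h4 using 2
      ring
    -- the reduction to a relation
    have hfin : ∀ c : Fin (R + 1) → K, (∀ t i, ∑ j, c j • extL (lam t) (T.ψ (E j i - w j)) ∈
        T.OO (e + ((d : ℤ) - 2) * q - 1) i) →
        ∑ j, c j • E j ∈ cobSub (n := n) (K := K) (T.GG k (e - 1) m q) := by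
      intro c hc
      have hv : T.Cocyc (T.GG k (e - 1) m q) (∑ j, c j • E j) :=
        (T.cocSub hst).sum_mem fun j _ => (T.cocSub hst).smul_mem _ (hEc j)
      have h5 : ∀ i, (∑ j, c j • E j) i - ∑ j, c j • w j = ∑ j, c j • (E j i - w j) := by
        intro i
        rw [Finset.sum_apply, ← Finset.sum_sub_distrib]
        exact Finset.sum_congr rfl fun j _ => by rw [Pi.smul_apply, smul_sub]
      refine T.yb_core hF hd k p e m q lam W B hBt hWB hB h0 _ hv (∑ j, c j • w j) ?_ ?_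
      · intro i
        rw [h5]
        exact Submodule.sum_mem _ fun j _ => Submodule.smul_mem _ _ (hw j i)
      · intro t i
        rw [h5]
        have h6 : extL (lam t) (T.ψ (∑ j, c j • (E j i - w j))) =
            ∑ j, c j • extL (lam t) (T.ψ (E j i - w j)) := by
          rw [map_sum, map_sum]
          refine Finset.sum_congr rfl fun j _ => ?_
          rw [← algebraMap_smul T.L (c j) (E j i - w j), map_smul, map_smul, algebraMap_smul]
        rw [h6]
        have h7 := hc t i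
        convert h7 using 2
        ring
    rcases lt_or_ge (e + ((d : ℤ) - 2) * q) 0 with hneg | hpos
    · refine ⟨Pi.single 0 1, ?_, hfin _ ?_⟩
      · intro h8
        have := congrFun h8 0
        simp at this
      · intro t i
        have h9 := (T.H0_Y hF hn (e + ((d : ℤ) - 2) * q) (fun i => extL (lam t) (T.ψ (E 0 i - w 0)))
          (fun i => hA 0 t i) (fun a b => hA' 0 t a b)).1 hneg i
        rw [Finset.sum_eq_single 0]
        · rw [Pi.single_eq_same, one_smul]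
          exact h9
        · intro j _ hj
          rw [Pi.single_eq_of_ne hj, zero_smul]
        · intro h10
          exact absurd (Finset.mem_univ _) h10
    · obtain ⟨s0, hs0⟩ := Int.eq_ofNat_of_zero_le hpos
      have hQ : ∀ j t, ∃ P : HP K n, P.IsHomogeneous s0 ∧
          ∀ i, extL (lam t) (T.ψ (E j i - w j)) - aeval T.x P ∈ T.OO ((s0 : ℤ) - 1) i := by
        intro j t
        obtain ⟨P, hP, hP'⟩ := (T.H0_Y hF hn (e + ((d : ℤ) - 2) * q) (fun i => extL (lam t) (T.ψ (E j i - w j)))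
          (fun i => hA j t i) (fun a b => hA' j t a b)).2 hpos
        rw [hs0, Int.toNat_natCast] at hP
        refine ⟨P, hP, fun i => ?_⟩
        have := hP' i
        rwa [hs0] at this
      choose Q hQh hQ' using hQ
      have hle : (monNum n k m q - Module.finrank K (IP K n k p m q)) * hyp (n - 1) d s0 < R + 1 := by
        rw [hR, Nat.lt_succ_iff]
        refine Nat.mul_le_mul_left _ (hyp_mono _ _ _ _ ?_)
        have : (s0 : ℤ) ≤ s := by rw [← hs0]; exact hs
        exact_mod_cast this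
      obtain ⟨c, hc0, hc⟩ := T.dimY hF hn hd k p m q e s0 hs0 M lam hlam (Fin.last _) (Fin.last_pos.ne')
        hle (fun j t => Q j t) (fun j => E j (Fin.last _) - w j) (fun j t => hQh j t) (fun j => hw j _)
        (fun j t => hQ' j t _)
      refine ⟨c, hc0, hfin c fun t i => ?_⟩
      have h8 : ∑ j, c j • extL (lam t) (T.ψ (E j i - w j)) =
          ∑ j, c j • (extL (lam t) (T.ψ (E j i - w j)) - aeval T.x (Q j t)) + aeval T.x (∑ j, c j • Q j t) := by
        rw [map_sum, ← Finset.sum_add_distrib]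
        refine Finset.sum_congr rfl fun j _ => ?_
        rw [map_smul, smul_sub, sub_add_cancel]
      rw [h8, hs0]
      refine Submodule.add_mem _ (Submodule.sum_mem _ fun j _ => Submodule.smul_mem _ _ (hQ' j t i)) ?_
      have hhom : (∑ j, c j • Q j t).IsHomogeneous s0 := by
        refine IsHomogeneous.sum _ _ _ fun j _ => ?_
        rw [smul_eq_C_mul, ← zero_add s0]
        exact (isHomogeneous_C _ _).mul (hQh j t)
      rcases eq_or_ne i 0 with rfl | hi
      · rw [T.yb_OO_zero_chart _ 0]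
        refine T.yb_A_mem_OO ?_
        rw [T.mem_A hF]
        exact ⟨s0, _, hhom, by rw [T.x_zero, one_pow, div_one]⟩
      · exact (T.H0_Y_zero hF hn s0 _ hhom i hi).2 (hc t)
  obtain ⟨Φ', hΦ'⟩ := key
  refine ⟨LinearMap.pi fun t => Fin.addCases (fun a => (LinearMap.proj a).comp Φ)
    (fun b => (LinearMap.proj b).comp Φ') t, fun v hv hv0 => ?_⟩
  have h1 : Φ v = 0 := by
    funext a
    have := congrFun hv0 (Fin.castAdd R a)
    simpa using this
  have h2 : Φ' v = 0 := by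
    funext b
    have := congrFun hv0 (Fin.natAdd N b)
    simpa using this
  exact hΦ' v (Submodule.mem_inf.2 ⟨hv, LinearMap.mem_ker.2 h1⟩) h2

end Pool.Agent.H47.UG.FF
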