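import Pool.Agent.H73.UG.YbDefs

/-!
# Restriction to the section `x₀ = 0`: elementary lemmas
-/

set_option autoImplicit false
set_option linter.unusedSectionVars false

open MvPolynomial

namespace Pool.Agent.H47.UG

section

variable {K L σ : Type} [Field K] [Field L] [Algebra K L]

theorem extL_monomial (lam : MvPolynomial σ K →ₗ[K] K) (b : σ →₀ ℕ) (a : L) :
    extL (L := L) lam (monomial b a) = a * algebraMap K L (lam (monomial b 1)) := by
  have h : (monomial b a : MvPolynomial σ L) = a • (basisMonomials σ L) b := by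
    rw [coe_basisMonomials, smul_monomial, smul_eq_mul, mul_one]
  rw [h, map_smul, extL, Module.Basis.constr_basis, smul_eq_mul]

theorem extL_eq_sum (lam : MvPolynomial σ K →ₗ[K] K) (v : MvPolynomial σ L) :
    extL lam v = ∑ b ∈ v.support, coeff b v * algebraMap K L (lam (monomial b 1)) := by
  conv_lhs => rw [← support_sum_monomial_coeff v]
  rw [map_sum]
  exact Finset.sum_congr rfl fun b _ => extL_monomial lam b _

theorem extL_mul (lam : MvPolynomial σ K →ₗ[K] K) (a : L) (v : MvPolynomial σ L) :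
    extL lam (C a * v) = a * extL lam v := by
  rw [← smul_eq_C_mul, map_smul, smul_eq_mul]

theorem extL_map (lam : MvPolynomial σ K →ₗ[K] K) (g : MvPolynomial σ K) :
    extL lam (map (algebraMap K L) g) = algebraMap K L (lam g) := by
  conv_lhs => rw [← support_sum_monomial_coeff g]
  conv_rhs => rw [← support_sum_monomial_coeff g]
  simp only [map_sum, map_monomial, extL_monomial]
  refine Finset.sum_congr rfl fun b _ => ?_
  have h : (monomial b (coeff b g) : MvPolynomial σ K) = coeff b g • monomial b 1 := by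
    rw [smul_monomial, smul_eq_mul, mul_one]
  rw [h, map_smul, smul_eq_mul, map_mul]

theorem extL_mem (lam : MvPolynomial σ K →ₗ[K] K) (O : Submodule K L) (v : MvPolynomial σ L)
    (h : ∀ b ∈ v.support, coeff b v ∈ O) : extL lam v ∈ O := by
  rw [extL_eq_sum]
  refine O.sum_mem fun b hb => ?_
  rw [mul_comm, ← Algebra.smul_def]
  exact O.smul_mem _ (h b hb)

theorem extL_BJ (lam : MvPolynomial σ K →ₗ[K] K) (J : Submodule K (MvPolynomial σ K))
    (hJ : ∀ g ∈ J, lam g = 0) (O : Submodule K L) (v : MvPolynomial σ L) (hv : v ∈ BJ O J) : extL lam v = 0 := by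
  refine Submodule.span_induction (p := fun v _ => extL lam v = 0) ?_ ?_ ?_ ?_ hv
  · rintro x ⟨a, -, g, hg, rfl⟩
    rw [extL_mul, extL_map, hJ g hg, map_zero, mul_zero]
  · exact map_zero _
  · intro x y _ _ hx hy
    rw [map_add, hx, hy, add_zero]
  · intro c x _ hx
    rw [← algebraMap_smul L c x, map_smul, hx, smul_zero]

theorem mem_BJ (O : Submodule K L) (J : Submodule K (MvPolynomial σ K)) {a : L} (ha : a ∈ O)
    {g : MvPolynomial σ K} (hg : g ∈ J) : C a * map (algebraMap K L) g ∈ BJ O J :=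
  Submodule.subset_span ⟨a, ha, g, hg, rfl⟩

/-- Decomposition along `I` and a complement. -/
theorem mem_BJ_sup {M : ℕ} (I J : Submodule K (MvPolynomial σ K)) (B : Finset (σ →₀ ℕ))
    (lam : Fin M → (MvPolynomial σ K →ₗ[K] K)) (W : Fin M → MvPolynomial σ K)
    (hW : ∀ t, W t ∈ J) (hB : ∀ b ∈ B, monomial b 1 - ∑ t, lam t (monomial b 1) • W t ∈ I)
    (O O' : Submodule K L) (v : MvPolynomial σ L) (h1 : ∀ b ∈ v.support, b ∈ B ∧ coeff b v ∈ O)
    (h2 : ∀ t, extL (lam t) v ∈ O') : v ∈ BJ O I ⊔ BJ O' J := by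
  classical
  have key : v = ∑ b ∈ v.support, C (coeff b v) *
      map (algebraMap K L) (monomial b 1 - ∑ t, lam t (monomial b 1) • W t) +
      ∑ t, C (extL (lam t) v) * map (algebraMap K L) (W t) := by
    have h3 : ∀ t, C (extL (lam t) v) * map (algebraMap K L) (W t) =
        ∑ b ∈ v.support, C (coeff b v) * map (algebraMap K L) (lam t (monomial b 1) • W t) := by
      intro t
      rw [extL_eq_sum, map_sum, Finset.sum_mul]
      refine Finset.sum_congr rfl fun b _ => ?_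
      rw [smul_eq_C_mul, map_mul (map (algebraMap K L)), map_C, C_mul, mul_assoc]
    simp_rw [h3]
    rw [Finset.sum_comm, ← Finset.sum_add_distrib]
    conv_lhs => rw [← support_sum_monomial_coeff v]
    refine Finset.sum_congr rfl fun b _ => ?_
    rw [← Finset.mul_sum, ← mul_add, map_sub, map_sum, sub_add_cancel, map_monomial, map_one, C_mul_monomial,
      mul_one]
  rw [key]
  refine Submodule.add_mem_sup ?_ ?_
  · exact Submodule.sum_mem _ fun b hb => mem_BJ _ _ (h1 b hb).2 (hB b (h1 b hb).1)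
  · exact Submodule.sum_mem _ fun t _ => mem_BJ _ _ (h2 t) (hW t)

end

namespace FF

variable {K : Type} [Field K] {n d : ℕ} {F : HP K n} (T : FF d F)

theorem yb_div_mem_A (i j : Fin (n + 2)) : T.x j / T.x i ∈ T.A i :=
  Algebra.subset_adjoin ⟨j, rfl⟩

theorem yb_inv_mem_A (i : Fin (n + 2)) : (T.x i)⁻¹ ∈ T.A i := by
  have h := T.yb_div_mem_A i 0
  rwa [T.x_zero, one_div] at h

theorem yb_mem_OO (e : ℤ) (i : Fin (n + 2)) (v : T.L) : v ∈ T.OO e i ↔ ∃ a ∈ T.A i, v = T.x i ^ e * a := by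
  constructor
  · intro h
    refine Submodule.span_induction (p := fun v _ => ∃ a ∈ T.A i, v = T.x i ^ e * a) ?_ ?_ ?_ ?_ h
    · rintro x hx
      exact hx
    · exact ⟨0, Subalgebra.zero_mem _, by rw [mul_zero]⟩
    · rintro x y _ _ ⟨a, ha, rfl⟩ ⟨b, hb, rfl⟩
      exact ⟨a + b, Subalgebra.add_mem _ ha hb, by rw [mul_add]⟩
    · rintro c x _ ⟨a, ha, rfl⟩
      exact ⟨c • a, Subalgebra.smul_mem _ ha c, by rw [mul_smul_comm]⟩
  · exact fun h => Submodule.subset_span h

theorem yb_OO_mul {e e' : ℤ} {i : Fin (n + 2)} {v w : T.L} (hv : v ∈ T.OO e i) (hw : w ∈ T.OO e' i) :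
    v * w ∈ T.OO (e + e') i := by
  rw [yb_mem_OO] at hv hw ⊢
  obtain ⟨a, ha, rfl⟩ := hv
  obtain ⟨b, hb, rfl⟩ := hw
  exact ⟨a * b, Subalgebra.mul_mem _ ha hb, by rw [zpow_add₀ (T.x_ne i)]; ring⟩

theorem yb_A_mem_OO {i : Fin (n + 2)} {a : T.L} (ha : a ∈ T.A i) : a ∈ T.OO 0 i := by
  rw [yb_mem_OO]
  exact ⟨a, ha, by rw [zpow_zero, one_mul]⟩

theorem yb_OO_le {e e' : ℤ} (h : e ≤ e') (i : Fin (n + 2)) : T.OO e i ≤ T.OO e' i := by
  intro v hv
  rw [yb_mem_OO] at hv ⊢
  obtain ⟨a, ha, rfl⟩ := hv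
  obtain ⟨k, rfl⟩ := Int.le.dest h
  refine ⟨(T.x i)⁻¹ ^ k * a, Subalgebra.mul_mem _ (Subalgebra.pow_mem _ (T.yb_inv_mem_A i) k) ha, ?_⟩
  rw [zpow_add₀ (T.x_ne i), zpow_natCast, inv_pow]
  have := pow_ne_zero k (T.x_ne i)
  field_simp

theorem yb_OO_zero_chart (e e' : ℤ) : T.OO e 0 = T.OO e' 0 := by
  ext v
  rw [yb_mem_OO, yb_mem_OO, T.x_zero, one_zpow, one_zpow]

section

variable {V : Type} [AddCommGroup V] [Module T.L V] [Module K V] [IsScalarTower K T.L V]

theorem yb_loc_mono {M : Lat (n := n) (K := K) V} (hM : T.Stable M) {i j : Fin (n + 2)} {N N' : ℕ} (h : N ≤ N') {v : V}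
    (hv : (T.x j / T.x i) ^ N • v ∈ M i) : (T.x j / T.x i) ^ N' • v ∈ M i := by
  obtain ⟨k, rfl⟩ := Nat.exists_eq_add_of_le h
  rw [add_comm, pow_add, mul_smul]
  exact hM i _ (Subalgebra.pow_mem _ (T.yb_div_mem_A i j) k) _ hv

theorem yb_loc_add {M : Lat (n := n) (K := K) V} (hM : T.Stable M) {i j : Fin (n + 2)} {v w : V}
    (hv : v ∈ T.loc M i j) (hw : w ∈ T.loc M i j) : v + w ∈ T.loc M i j := by
  obtain ⟨N, hN⟩ := hv
  obtain ⟨N', hN'⟩ := hw
  refine ⟨max N N', ?_⟩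
  rw [smul_add]
  exact (M i).add_mem (T.yb_loc_mono hM (le_max_left _ _) hN) (T.yb_loc_mono hM (le_max_right _ _) hN')

theorem yb_loc_smul {M : Lat (n := n) (K := K) V} {i j : Fin (n + 2)} {v : V} (c : K)
    (hv : v ∈ T.loc M i j) : c • v ∈ T.loc M i j := by
  obtain ⟨N, hN⟩ := hv
  exact ⟨N, by rw [smul_comm]; exact (M i).smul_mem c hN⟩

theorem yb_loc_zero (M : Lat (n := n) (K := K) V) (i j : Fin (n + 2)) : (0 : V) ∈ T.loc M i j :=
  ⟨0, by rw [smul_zero]; exact (M i).zero_mem⟩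

theorem yb_loc_neg {M : Lat (n := n) (K := K) V} {i j : Fin (n + 2)} {v : V}
    (hv : v ∈ T.loc M i j) : -v ∈ T.loc M i j := by
  obtain ⟨N, hN⟩ := hv
  exact ⟨N, by rw [smul_neg]; exact (M i).neg_mem hN⟩

theorem yb_loc_sub {M : Lat (n := n) (K := K) V} (hM : T.Stable M) {i j : Fin (n + 2)} {v w : V}
    (hv : v ∈ T.loc M i j) (hw : w ∈ T.loc M i j) : v - w ∈ T.loc M i j := by
  rw [sub_eq_add_neg]
  exact T.yb_loc_add hM hv (T.yb_loc_neg hw)

theorem yb_mem_loc {M : Lat (n := n) (K := K) V} {i : Fin (n + 2)} (j : Fin (n + 2)) {v : V} (hv : v ∈ M i) :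
    v ∈ T.loc M i j :=
  ⟨0, by rw [pow_zero, one_smul]; exact hv⟩

theorem yb_loc_le {M M' : Lat (n := n) (K := K) V} (h : ∀ i, M i ≤ M' i) {i j : Fin (n + 2)} {v : V}
    (hv : v ∈ T.loc M i j) : v ∈ T.loc M' i j := by
  obtain ⟨N, hN⟩ := hv
  exact ⟨N, h i hN⟩

/-- Cocycles. -/
def cocSub {M : Lat (n := n) (K := K) V} (hM : T.Stable M) : Submodule K (Fin (n + 2) → V) where
  carrier := {v | T.Cocyc M v}
  zero_mem' i j := by
    simp only [Pi.zero_apply, sub_zero]
    exact T.yb_loc_zero M i j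
  add_mem' {v w} hv hw i j := by
    have := T.yb_loc_add hM (hv i j) (hw i j)
    simp only [Pi.add_apply]
    convert this using 1
    abel
  smul_mem' c v hv i j := by
    have := T.yb_loc_smul c (hv i j)
    simpa only [Pi.smul_apply, smul_sub] using this

omit [Module T.L V] [IsScalarTower K T.L V] in
/-- Coboundaries. -/
def cobSub (M : Lat (n := n) (K := K) V) : Submodule K (Fin (n + 2) → V) where
  carrier := {v | Cob M v}
  zero_mem' := ⟨0, fun i => by simp⟩
  add_mem' {v w} := by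
    rintro ⟨a, ha⟩ ⟨b, hb⟩
    refine ⟨a + b, fun i => ?_⟩
    have := (M i).add_mem (ha i) (hb i)
    simp only [Pi.add_apply]
    convert this using 1
    abel
  smul_mem' c v := by
    rintro ⟨a, ha⟩
    refine ⟨c • a, fun i => ?_⟩
    have := (M i).smul_mem c (ha i)
    simpa only [Pi.smul_apply, smul_sub] using this

end

theorem yb_GG_mono (k : ℕ) {e e' : ℤ} (h : e ≤ e') (m q : ℕ) (i : Fin (n + 2)) :
    T.GG k e m q i ≤ T.GG k e' m q i := by
  refine Submodule.span_le.2 ?_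
  rintro v ⟨a, ha, s, l, hs, rfl⟩
  have h1 : T.x i ^ e * a ∈ T.OO e' i := T.yb_OO_le h i ((T.yb_mem_OO _ _ _).2 ⟨a, ha, rfl⟩)
  obtain ⟨b, hb, hab⟩ := (T.yb_mem_OO _ _ _).1 h1
  exact Submodule.subset_span ⟨b, hb, s, l, hs, by rw [hab]⟩

end FF

end Pool.Agent.H47.UG
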