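import Pool.Agent.H47.UG.Ch

/-!
# Restriction to the section `x₀ = 0`: definitions
-/

set_option autoImplicit false

open MvPolynomial

namespace Pool.Agent.H47.UG

/-- The index set of the variables `Z(s, pq)`. -/
abbrev ZI (n : ℕ) := ℕ × (Fin (n + 2) × Fin (n + 2))

/-- The analogue of `IP` for the variables `Z(s, pq)`. -/
noncomputable def IZ (K : Type) [Field K] (n k p m q : ℕ) : Submodule K (MvPolynomial (ZI n) K) :=
  Submodule.span K {v | ∃ (c : Fin p → Fin n → Fin k) (f : Fin p → Fin n → Fin (n + 2) × Fin (n + 2)) (q' : ℕ)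
    (s : Fin q' → Fin k) (l : Fin q' → Fin (n + 2) × Fin (n + 2)),
    q' + p * n = q ∧ ∑ r, ((s r : ℕ) + 1) + ∑ r, ∑ t, ((c r t : ℕ) + 1) = m ∧
    v = (∏ r, Matrix.det (Matrix.of fun l t : Fin n => (X ((c r t : ℕ), f r l) : MvPolynomial (ZI n) K))) *
      ∏ r, X ((s r : ℕ), l r)}

/-- The exponent `b` has orders `< k`, weight `m` and degree `q`. -/
def Typ {σ : Type} (k m q : ℕ) (b : ℕ × σ →₀ ℕ) : Prop :=
  (∀ p ∈ b.support, p.1 < k) ∧ Finsupp.weight (fun p : ℕ × σ => p.1 + 1) b = m ∧ b.degree = q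

/-- Extension of a linear form on polynomials over `K` to polynomials over `L`. -/
noncomputable def extL {K L σ : Type} [Field K] [Field L] [Algebra K L] (lam : MvPolynomial σ K →ₗ[K] K) :
    MvPolynomial σ L →ₗ[L] L :=
  (basisMonomials σ L).constr L fun b => algebraMap K L (lam (monomial b 1))

/-- Polynomials `∑ a_t g_t` with `a_t ∈ B` and `g_t ∈ J`. -/
noncomputable def BJ {K L σ : Type} [Field K] [Field L] [Algebra K L] (B : Submodule K L)
    (J : Submodule K (MvPolynomial σ K)) : Submodule K (MvPolynomial σ L) :=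
  Submodule.span K {v | ∃ a ∈ B, ∃ g ∈ J, v = C a * map (algebraMap K L) g}

/-- The section `x₀ = 0`. -/
noncomputable def res {K : Type} [Field K] (n : ℕ) : HP K n →ₐ[K] MvPolynomial (Fin (n + 1)) K :=
  aeval (Fin.cons 0 X : Fin (n + 2) → MvPolynomial (Fin (n + 1)) K)

/-- The homogeneous coordinate ring of the section `x₀ = 0`. -/
abbrev SY {K : Type} [Field K] {n : ℕ} (F : HP K n) := MvPolynomial (Fin (n + 1)) K ⧸ Ideal.span {res n F}

/-- Its field of fractions. -/
abbrev MY {K : Type} [Field K] {n : ℕ} (F : HP K n) := FractionRing (SY F)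

/-- The image of a form in `MY`. -/
noncomputable def toMY {K : Type} [Field K] {n : ℕ} (F : HP K n) : HP K n →ₐ[K] MY F :=
  ((IsScalarTower.toAlgHom K (SY F) (MY F)).comp (Ideal.Quotient.mkₐ K (Ideal.span {res n F}))).comp (res n)

end Pool.Agent.H47.UG
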