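import Pool.Agent.H73.UG.YbBase
import Pool.Agent.H68.UG.YbRed
import Pool.Agent.H35.UG.YbTyp
import Pool.Agent.H18.UG.YbPsip
import Pool.Agent.H1.UG.LocGGF
import Pool.Agent.H94.UG.Psi
import Pool.Agent.H77.UG.Hilb
import Pool.Agent.H47.UG.Subsp
import Pool.Agent.H33.UG.A1

/-!
# Restriction to the section `x₀ = 0`: dimension of the space of classes
-/

set_option autoImplicit false
set_option linter.unusedSectionVars false

open MvPolynomial

namespace Pool.Agent.H47.UG

theorem yb_finite_homog {K : Type} [Field K] (N s : ℕ) : Module.Finite K (homogeneousSubmodule (Fin N) K s) := by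
  rw [homogeneousSubmodule_eq_finsupp_supported]
  have hfin : {d : Fin N →₀ ℕ | d.degree = s}.Finite := by
    refine Set.Finite.subset (Finsupp.finite_of_degree_le (σ := Fin N) s) ?_
    intro d hd
    exact le_of_eq hd
  have := hfin.fintype
  exact Module.Finite.equiv (AddMonoidAlgebra.supportedEquivFinsupp (R := K) (S := K)
    {d : Fin N →₀ ℕ | d.degree = s}).symm

/-- Forms of degree `s` on `Y` inside the field of fractions. -/
noncomputable def yb_phi {K : Type} [Field K] {n : ℕ} (F : HP K n) (s : ℕ) :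
    homogeneousSubmodule (Fin (n + 1)) K s →ₗ[K] MY F :=
  ((IsScalarTower.toAlgHom K (SY F) (MY F)).comp (Ideal.Quotient.mkₐ K (Ideal.span {res n F}))).toLinearMap.comp
    (homogeneousSubmodule (Fin (n + 1)) K s).subtype

theorem yb_res_hom {K : Type} [Field K] {n : ℕ} {P : HP K n} {s : ℕ} (hP : P.IsHomogeneous s) :
    (res n P).IsHomogeneous s := by
  unfold res
  have h := hP.aeval (Fin.cons 0 X : Fin (n + 2) → MvPolynomial (Fin (n + 1)) K) (n := 1) ?_
  · rwa [one_mul] at h
  · intro i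
    refine Fin.cases ?_ (fun j => ?_) i
    · exact isHomogeneous_zero _ _ _
    · exact isHomogeneous_X _ _

theorem yb_phi_ker {K : Type} [Field K] {n : ℕ} (F : HP K n) (s : ℕ) :
    LinearMap.ker (yb_phi F s) = mult (res n F) s := by
  ext P
  rw [LinearMap.mem_ker, mult, Submodule.mem_comap]
  change algebraMap (SY F) (MY F) (Ideal.Quotient.mk _ (P : MvPolynomial (Fin (n + 1)) K)) = 0 ↔
    (P : MvPolynomial (Fin (n + 1)) K) ∈ Ideal.span {res n F}
  rw [← Ideal.Quotient.eq_zero_iff_mem]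
  exact ⟨fun h => (IsFractionRing.injective (SY F) (MY F)) (h.trans (map_zero _).symm),
    fun h => by rw [h, map_zero]⟩

theorem yb_finrank_range {K : Type} [Field K] {n d : ℕ} (hn : 1 ≤ n) (hd : 1 ≤ d) (F : HP K n)
    (hF0 : res n F ≠ 0) (hFd : F.IsHomogeneous d) (s : ℕ) :
    Module.finrank K (LinearMap.range (yb_phi F s)) = hyp (n - 1) d s := by
  rw [← LinearEquiv.finrank_eq (yb_phi F s).quotKerEquivRange, yb_phi_ker]
  obtain ⟨N, rfl⟩ : ∃ N, n = N + 1 := ⟨n - 1, by omega⟩
  exact finrank_quot s (res (N + 1) F) hF0 (yb_res_hom hFd) hd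

namespace FF

variable {K : Type} [Field K] [CharZero K] {n d : ℕ} {F : HP K n} (T : FF d F) (hF : Nice d F)

include hF

theorem dimY (hn : 2 ≤ n) (hd : 2 ≤ d) (k p m q : ℕ) (e : ℤ) (s : ℕ) (hs : e + ((d : ℤ) - 2) * q = s) (M : ℕ)
    (lam : Fin M → (MvPolynomial (ZI n) K →ₗ[K] K)) (hlam : ∀ t, ∀ v ∈ IZ K n k p m q, lam t v = 0)
    (i : Fin (n + 2)) (hi : i ≠ 0) {τ : ℕ}
    (hτ : (monNum n k m q - Module.finrank K (IP K n k p m q)) * hyp (n - 1) d s < τ)
    (E : Fin τ → Fin M → HP K n) (g : Fin τ → T.BB)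
    (hE : ∀ j t, (E j t).IsHomogeneous s) (hg : ∀ j, g j ∈ T.GG k e m q i)
    (h : ∀ j t, extL (lam t) (T.ψ (g j)) - aeval T.x (E j t) ∈ T.OO ((s : ℤ) - 1) i) :
    ∃ c : Fin τ → K, c ≠ 0 ∧ ∀ t, res n F ∣ res n (∑ j, c j • E j t) := by
  classical
  have hprime := prime_SY hF
  have hdom : IsDomain (SY F) := Ideal.Quotient.isDomain _
  obtain ⟨red, hred⟩ := T.exists_red hF hd i hi
  have hξ := toMY_X_ne hF hd i hi
  -- a chart on which `u` does not vanish on `Y`
  obtain ⟨j, hj⟩ : ∃ j : Fin (n + 1), red ⟨T.u i (i.succAbove j), T.u_mem hF i _⟩ ≠ 0 := by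
    by_contra hcon
    push Not at hcon
    obtain ⟨c, hc, hci, hsum⟩ := T.smoothA hF hd i
    have h1 : (∑ j, (⟨c j, hc j⟩ : T.A i) * ⟨T.u i j, T.u_mem hF i j⟩) = 1 := by
      apply Subtype.ext
      rw [AddSubmonoidClass.coe_finsetSum]
      exact hsum
    have h2 := congrArg red h1
    rw [map_sum, map_one] at h2
    have h3 : ∀ j, red ((⟨c j, hc j⟩ : T.A i) * ⟨T.u i j, T.u_mem hF i j⟩) = 0 := by
      intro j
      rw [map_mul]
      rcases eq_or_ne j i with rfl | hji
      · have h4 : (⟨c j, hc j⟩ : T.A j) = 0 := Subtype.ext hci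
        rw [h4, map_zero, zero_mul]
      · obtain ⟨j', rfl⟩ := Fin.exists_succAbove_eq hji
        rw [hcon j', mul_zero]
    rw [Finset.sum_eq_zero fun j _ => h3 j] at h2
    exact zero_ne_one h2
  set u : T.A i := ⟨T.u i (i.succAbove j), T.u_mem hF i _⟩ with hu
  set rb := monNum n k m q - Module.finrank K (IP K n k p m q) with hrb
  obtain ⟨g', hg't, hg'⟩ := exists_compl (K := K) n k p m q
  -- the functionals on the polynomials with constant coefficients in the chart
  let γ : Fin M → MvPolynomial (ℕ × Fin n) K → T.L := fun t P =>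
    extL (lam t) (T.ψ (T.σ i j (map (algebraMap K T.L) P)))
  have hγ0 : ∀ t, ∀ P ∈ IP K n k p m q, γ t P = 0 := fun t P hP =>
    extL_BJ (lam t) (IZ K n k p m q) (hlam t) ⊤ _ (T.ψσ_IP hF i j P hP)
  -- membership of the basis elements
  have hN : ∀ κ, ∃ N : ℕ, C (T.u i (i.succAbove j)) ^ N * T.σ i j (map (algebraMap K T.L) (g' κ)) ∈
      T.GG k 0 m q i := by
    intro κ
    refine (T.loc_GG hF hd k 0 m q i j _).2 ⟨_, rfl, fun b hb => ?_⟩
    rw [coeff_map] at hb ⊢
    have hb' : b ∈ (g' κ).support := mem_support_iff.2 fun h0 => hb (by rw [h0, map_zero])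
    obtain ⟨h1, h2, h3⟩ := hg't κ b hb'
    refine ⟨h1, h2, h3, 0, ?_⟩
    rw [pow_zero, one_mul]
    exact T.yb_A_mem_OO (Subalgebra.algebraMap_mem _ _)
  choose N hN using hN
  -- the vectors spanning `W`
  have hvec : ∀ κ t, T.u i (i.succAbove j) ^ N κ * γ t (g' κ) * T.x i ^ (-(((d : ℤ) - 2) * q)) ∈ T.A i := by
    intro κ t
    have h1 : T.u i (i.succAbove j) ^ N κ * γ t (g' κ) ∈ T.OO (((d : ℤ) - 2) * q) i := by
      have h2 : T.u i (i.succAbove j) ^ N κ * γ t (g' κ) =
          extL (lam t) (T.ψ (C (T.u i (i.succAbove j)) ^ N κ * T.σ i j (map (algebraMap K T.L) (g' κ)))) := by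
        rw [← C_pow, ← smul_eq_C_mul, map_smul, map_smul, smul_eq_mul]
      rw [h2]
      refine extL_mem _ _ _ fun b hb => ?_
      have h3 := (T.ψ_GG hF hd k 0 m q i _ (hN κ) b (mem_support_iff.1 hb)).2.2.2
      rwa [zero_add] at h3
    obtain ⟨a, ha, hav⟩ := (T.yb_mem_OO _ _ _).1 h1
    rw [hav, zpow_neg]
    have h4 : T.x i ^ (((d : ℤ) - 2) * q) ≠ 0 := zpow_ne_zero _ (T.x_ne i)
    rw [mul_comm (T.x i ^ _) a, mul_assoc, mul_inv_cancel₀ h4, mul_one]
    exact ha
  let vv : Fin rb → Fin M → MY F := fun κ t => red ⟨_, hvec κ t⟩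
  let W : Submodule (MY F) (Fin M → MY F) := Submodule.span (MY F) (Set.range vv)
  have hWdim : Module.finrank (MY F) W ≤ rb := by
    have := finrank_range_le_card (R := MY F) vv
    rwa [Fintype.card_fin] at this
  have hmem : ∀ l, (fun t => toMY F (E l t)) ∈ W := by
    intro l
    obtain ⟨w, hgw, hw⟩ := (T.loc_GG hF hd k e m q i j (g l)).1 ⟨0, by rw [pow_zero, one_mul]; exact hg l⟩
    have hdec : ∀ b, ∃ (P : MvPolynomial (ℕ × Fin n) K) (c : Fin rb → K), b ∈ w.support →
        P ∈ IP K n k p m q ∧ P + ∑ κ, c κ • g' κ = monomial b 1 := by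
      intro b
      by_cases hb : b ∈ w.support
      · obtain ⟨h1, h2, h3, -⟩ := hw b (mem_support_iff.1 hb)
        obtain ⟨P, hP, Q, hQ, hPQ⟩ := Submodule.mem_sup.1 (hg' b ⟨h1, h2, h3⟩)
        obtain ⟨c, hc⟩ := (Submodule.mem_span_range_iff_exists_fun K).1 hQ
        exact ⟨P, c, fun _ => ⟨hP, by rw [hc, hPQ]⟩⟩
      · exact ⟨0, 0, fun h0 => absurd h0 hb⟩
    choose P c hPc using hdec
    have hNb : ∀ b, ∃ N' : ℕ, b ∈ w.support → T.u i (i.succAbove j) ^ N' * coeff b w ∈ T.OO e i := by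
      intro b
      by_cases hb : b ∈ w.support
      · obtain ⟨-, -, -, N', hN'⟩ := hw b (mem_support_iff.1 hb)
        exact ⟨N', fun _ => hN'⟩
      · exact ⟨0, fun h0 => absurd h0 hb⟩
    choose Nb hNb using hNb
    set N' := ∑ b ∈ w.support, Nb b with hN'def
    have hN' : ∀ b ∈ w.support, T.u i (i.succAbove j) ^ N' * coeff b w ∈ T.OO e i := by
      intro b hb
      have h1 : Nb b ≤ N' := Finset.single_le_sum (fun _ _ => Nat.zero_le _) hb
      obtain ⟨r, hr⟩ := Nat.exists_eq_add_of_le h1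
      rw [hr, add_comm (Nb b) r, pow_add, mul_assoc]
      have h2 := T.yb_OO_mul (T.yb_A_mem_OO (Subalgebra.pow_mem _ (T.u_mem hF i (i.succAbove j)) r)) (hNb b hb)
      rwa [zero_add] at h2
    let w' : Fin rb → T.L := fun κ => ∑ b ∈ w.support, coeff b w * algebraMap K T.L (c b κ)
    have hw' : ∀ κ, T.u i (i.succAbove j) ^ N' * w' κ * T.x i ^ (-e) ∈ T.A i := by
      intro κ
      have h1 : T.u i (i.succAbove j) ^ N' * w' κ ∈ T.OO e i := by
        have h2 : T.u i (i.succAbove j) ^ N' * w' κ =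
            ∑ b ∈ w.support, c b κ • (T.u i (i.succAbove j) ^ N' * coeff b w) := by
          rw [Finset.mul_sum]
          refine Finset.sum_congr rfl fun b _ => ?_
          rw [Algebra.smul_def]
          ring
        rw [h2]
        exact Submodule.sum_mem _ fun b hb => Submodule.smul_mem _ _ (hN' b hb)
      obtain ⟨a, ha, hav⟩ := (T.yb_mem_OO _ _ _).1 h1
      rw [hav, zpow_neg]
      have h4 : T.x i ^ e ≠ 0 := zpow_ne_zero _ (T.x_ne i)
      rw [mul_comm (T.x i ^ _) a, mul_assoc, mul_inv_cancel₀ h4, mul_one]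
      exact ha
    have hsum : ∀ t, extL (lam t) (T.ψ (g l)) = ∑ κ, w' κ * γ t (g' κ) := by
      intro t
      let Γ : T.BB →ₗ[T.L] T.L := (extL (lam t)).comp (T.ψ.toLinearMap.comp (T.σ i j).toLinearMap)
      have hΓ : ∀ (a : T.L) (z : T.BB), Γ (C a * z) = a * Γ z := by
        intro a z
        rw [← smul_eq_C_mul, map_smul, smul_eq_mul]
      have hΓγ : ∀ Q, Γ (map (algebraMap K T.L) Q) = γ t Q := fun Q => rfl
      have h1 : extL (lam t) (T.ψ (g l)) = Γ w := by rw [hgw]; rfl
      have h2 : w = ∑ b ∈ w.support, C (coeff b w) * map (algebraMap K T.L) (monomial b 1) := by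
        conv_lhs => rw [← support_sum_monomial_coeff w]
        refine Finset.sum_congr rfl fun b _ => ?_
        rw [map_monomial, map_one, C_mul_monomial, mul_one]
      rw [h1, h2, map_sum]
      have h3 : ∀ b ∈ w.support, Γ (C (coeff b w) * map (algebraMap K T.L) (monomial b 1)) =
          ∑ κ, coeff b w * algebraMap K T.L (c b κ) * γ t (g' κ) := by
        intro b hb
        obtain ⟨h4, h5⟩ := hPc b hb
        rw [hΓ, ← h5, map_add, map_add, hΓγ, hγ0 t _ h4, zero_add, map_sum, map_sum, Finset.mul_sum]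
        refine Finset.sum_congr rfl fun κ _ => ?_
        rw [smul_eq_C_mul, map_mul (map (algebraMap K T.L)), map_C, hΓ, hΓγ, mul_assoc]
      rw [Finset.sum_congr rfl h3, Finset.sum_comm]
      refine Finset.sum_congr rfl fun κ _ => ?_
      rw [Finset.sum_mul]
    -- the reduction of the section
    have hat : ∀ t, extL (lam t) (T.ψ (g l)) * T.x i ^ (-(s : ℤ)) ∈ T.A i ∧
        ∀ ha : extL (lam t) (T.ψ (g l)) * T.x i ^ (-(s : ℤ)) ∈ T.A i,
          red ⟨_, ha⟩ * toMY F (X i) ^ s = toMY F (E l t) := by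
      intro t
      obtain ⟨a, ha, hav⟩ := (T.yb_mem_OO _ _ _).1 (h l t)
      have hxs : T.x i ^ s ≠ 0 := pow_ne_zero _ (T.x_ne i)
      have h1 : extL (lam t) (T.ψ (g l)) * T.x i ^ (-(s : ℤ)) =
          aeval T.x (E l t) / T.x i ^ s + (T.x i)⁻¹ * a := by
        have h2 : extL (lam t) (T.ψ (g l)) = aeval T.x (E l t) + T.x i ^ ((s : ℤ) - 1) * a := by
          rw [← hav]
          ring
        rw [h2, add_mul, zpow_neg, zpow_natCast, div_eq_mul_inv]
        congr 1
        rw [zpow_sub_one₀ (T.x_ne i), zpow_natCast]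
        have := T.x_ne i
        field_simp
      have hE1 : aeval T.x (E l t) / T.x i ^ s ∈ T.A i := (T.mem_A hF i _).2 ⟨s, _, hE l t, rfl⟩
      have hi1 : (T.x i)⁻¹ * a ∈ T.A i := Subalgebra.mul_mem _ (T.yb_inv_mem_A i) ha
      refine ⟨by rw [h1]; exact Subalgebra.add_mem _ hE1 hi1, fun ha' => ?_⟩
      have h3 : (⟨_, ha'⟩ : T.A i) = ⟨_, hE1⟩ + ⟨_, T.yb_inv_mem_A i⟩ * ⟨a, ha⟩ := Subtype.ext h1
      rw [h3, map_add, map_mul, add_mul, hred s (E l t) (hE l t) ⟨_, hE1⟩ rfl]
      have h4 : red ⟨_, T.yb_inv_mem_A i⟩ = 0 := by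
        have h5 := hred 1 (X 0) (isHomogeneous_X _ _) ⟨_, T.yb_inv_mem_A i⟩ (by
          rw [aeval_X, T.x_zero, pow_one, one_div])
        have h6 : toMY F (X 0) = 0 := by
          rw [toMY_eq_zero hF]
          have : res n (X 0 : HP K n) = 0 := by
            unfold res
            rw [aeval_X, Fin.cons_zero]
          rw [this]
          exact dvd_zero _
        rw [h6, pow_one] at h5
        exact (mul_eq_zero.1 h5).resolve_right hξ
      rw [h4, zero_mul, zero_mul, add_zero]
    set N'' := ∑ κ, N κ with hN''def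
    have hNκ : ∀ κ, N κ ≤ N'' := fun κ => Finset.single_le_sum (fun _ _ => Nat.zero_le _) (Finset.mem_univ κ)
    have hrel : ∀ t, red u ^ (N' + N'') * red ⟨_, (hat t).1⟩ =
        ∑ κ, red ⟨_, hw' κ⟩ * red u ^ (N'' - N κ) * vv κ t := by
      intro t
      have h1 : u ^ (N' + N'') * ⟨_, (hat t).1⟩ =
          ∑ κ, (⟨_, hw' κ⟩ : T.A i) * u ^ (N'' - N κ) * ⟨_, hvec κ t⟩ := by
        apply Subtype.ext
        rw [AddSubmonoidClass.coe_finsetSum]
        simp only [MulMemClass.coe_mul, SubmonoidClass.coe_pow]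
        rw [hsum t, Finset.sum_mul, Finset.mul_sum]
        refine Finset.sum_congr rfl fun κ _ => ?_
        have h2 : T.u i (i.succAbove j) ^ (N' + N'') = T.u i (i.succAbove j) ^ N' *
            (T.u i (i.succAbove j) ^ (N'' - N κ) * T.u i (i.succAbove j) ^ N κ) := by
          rw [← pow_add, ← pow_add, Nat.sub_add_cancel (hNκ κ)]
        have h3 : T.x i ^ (-(s : ℤ)) = T.x i ^ (-e) * T.x i ^ (-(((d : ℤ) - 2) * q)) := by
          rw [← zpow_add₀ (T.x_ne i), ← hs]
          congr 1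
          ring
        rw [h2, h3]
        ring
      have h4 := congrArg red h1
      rw [map_mul, map_pow, map_sum] at h4
      rw [h4]
      refine Finset.sum_congr rfl fun κ _ => ?_
      rw [map_mul, map_mul, map_pow]
    have hfinal : (fun t => toMY F (E l t)) = ∑ κ, (toMY F (X i) ^ s * (red u ^ (N' + N''))⁻¹ *
        (red ⟨_, hw' κ⟩ * red u ^ (N'' - N κ))) • vv κ := by
      funext t
      rw [Finset.sum_apply]
      simp only [Pi.smul_apply, smul_eq_mul]
      rw [← (hat t).2 (hat t).1]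
      have h1 : red ⟨_, (hat t).1⟩ = (red u ^ (N' + N''))⁻¹ *
          ∑ κ, red ⟨_, hw' κ⟩ * red u ^ (N'' - N κ) * vv κ t := by
        rw [← hrel t, ← mul_assoc, inv_mul_cancel₀ (pow_ne_zero _ hj), one_mul]
      rw [h1, Finset.mul_sum, Finset.sum_mul]
      refine Finset.sum_congr rfl fun κ _ => ?_
      ring
    rw [hfinal]
    exact Submodule.sum_mem _ fun κ _ => Submodule.smul_mem _ _ (Submodule.subset_span ⟨κ, rfl⟩)
  -- the classes are dependent
  let U : Submodule K (Fin M → MY F) := Submodule.span K (Set.range fun l t => toMY F (E l t))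
  have := yb_finite_homog (K := K) (n + 1) s
  have hfin : FiniteDimensional K (LinearMap.range (yb_phi F s)) := Module.Finite.range _
  have hres0 : res n F ≠ 0 := hF.irr0.ne_zero
  obtain ⟨hU1, hU2⟩ := finrank_subsp (LinearMap.range (yb_phi F s)) W U (by
    intro v hv t
    refine Submodule.span_induction (p := fun v _ => v t ∈ LinearMap.range (yb_phi F s)) ?_ ?_ ?_ ?_ hv
    · rintro x ⟨l, rfl⟩
      exact ⟨⟨res n (E l t), yb_res_hom (hE l t)⟩, rfl⟩
    · exact Submodule.zero_mem _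
    · intro x y _ _ hx hy
      exact Submodule.add_mem _ hx hy
    · intro c x _ hx
      exact Submodule.smul_mem _ _ hx) (by
    intro v hv
    refine Submodule.span_induction (p := fun v _ => v ∈ W) ?_ ?_ ?_ ?_ hv
    · rintro x ⟨l, rfl⟩
      exact hmem l
    · exact Submodule.zero_mem _
    · intro x y _ _ hx hy
      exact Submodule.add_mem _ hx hy
    · intro c x _ hx
      rw [← algebraMap_smul (MY F) c x]
      exact Submodule.smul_mem _ _ hx)
  rw [yb_finrank_range (by omega) (by omega) F hres0 hF.hom s] at hU2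
  have hdep : ¬ LinearIndependent K (fun l : Fin τ => (fun t => toMY F (E l t) : Fin M → MY F)) := by
    intro hli
    have h1 := finrank_span_eq_card hli
    rw [Fintype.card_fin] at h1
    have h2 : Module.finrank K U = τ := h1
    have h3 : Module.finrank (MY F) W * hyp (n - 1) d s ≤ rb * hyp (n - 1) d s := Nat.mul_le_mul_right _ hWdim
    omega
  rw [Fintype.not_linearIndependent_iff] at hdep
  obtain ⟨c, hc, l, hl⟩ := hdep
  refine ⟨c, fun h0 => hl (congrFun h0 l), fun t => ?_⟩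
  rw [← toMY_eq_zero hF, map_sum]
  have h4 := congrFun hc t
  rw [Finset.sum_apply] at h4
  simpa [Pi.smul_apply] using h4

end FF

end Pool.Agent.H47.UG
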